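import Pool.Agent.H56.KAL.Stmts

/-!
# Interpolation on one grid

Tensor Lagrange interpolation, one direction after the other.
-/

set_option autoImplicit false

namespace Pool.KAL.BXI

open Finset Real

variable {n k : ℕ}

/-- Value at `t` of the Lagrange basis polynomial of the node `a`. -/
noncomputable def lv (v : Fin (k + 1) → ℝ) (a : Fin (k + 1)) (t : ℝ) : ℝ :=
  ∏ b ∈ univ.erase a, ((v a - v b)⁻¹ * (t - v b))

theorem interp (v : Fin (k + 1) → ℝ) (hv : Function.Injective v) (P : Polynomial ℝ)
    (hP : P.natDegree ≤ k) (t : ℝ) : P.eval t = ∑ a, P.eval (v a) * lv v a t := by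
  have h1 : P.degree < ((univ : Finset (Fin (k + 1))).card : WithBot ℕ) := by
    rw [Finset.card_univ, Fintype.card_fin]
    refine lt_of_le_of_lt Polynomial.degree_le_natDegree ?_
    exact_mod_cast Nat.lt_succ_of_le hP
  have h2 := Lagrange.eq_interpolate (s := univ) (v := v) (hv.injOn) h1
  conv_lhs => rw [h2]
  rw [Lagrange.interpolate_apply, Polynomial.eval_finsetSum]
  refine Finset.sum_congr rfl fun a _ => ?_
  rw [Polynomial.eval_mul, Polynomial.eval_C, Lagrange.basis, Polynomial.eval_prod]
  congr 1
  refine Finset.prod_congr rfl fun b _ => ?_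
  rw [Lagrange.basisDivisor]
  simp

theorem lv_bound (v : Fin (k + 1) → ℝ) (s N t : ℝ) (hs : 0 < s)
    (hv : ∀ a b, a ≠ b → s ≤ |v a - v b|) (ht : ∀ b, |t - v b| ≤ N) (a : Fin (k + 1)) :
    |lv v a t| ≤ (N / s) ^ k := by
  have hN : 0 ≤ N := le_trans (abs_nonneg _) (ht a)
  unfold lv
  rw [Finset.abs_prod]
  have h1 : ∏ b ∈ univ.erase a, |(v a - v b)⁻¹ * (t - v b)| ≤ ∏ _b ∈ univ.erase a, (N / s) := by
    refine Finset.prod_le_prod (fun b _ => abs_nonneg _) fun b hb => ?_
    have hne : a ≠ b := fun h => (Finset.mem_erase.1 hb).1 h.symm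
    have h2 := hv a b hne
    have h3 : 0 < |v a - v b| := lt_of_lt_of_le hs h2
    rw [abs_mul, abs_inv, div_eq_inv_mul]
    exact mul_le_mul (inv_anti₀ hs h2) (ht b) (abs_nonneg _) (inv_nonneg.2 hs.le)
  refine h1.trans (le_of_eq ?_)
  rw [Finset.prod_const, Finset.card_erase_of_mem (Finset.mem_univ a), Finset.card_univ,
    Fintype.card_fin, Nat.add_sub_cancel]

/-- The Lagrange basis polynomial in the variable `j`. -/
noncomputable def lag (B : Fin n → Fin (k + 1) → ℝ) (j : Fin n) (a : Fin (k + 1)) :
    MvPolynomial (Fin n) ℝ :=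
  ∏ b ∈ univ.erase a, (MvPolynomial.C ((B j a - B j b)⁻¹) *
    (MvPolynomial.X j - MvPolynomial.C (B j b)))

theorem eval_lag (B : Fin n → Fin (k + 1) → ℝ) (j : Fin n) (a : Fin (k + 1)) (z : Fin n → ℝ) :
    MvPolynomial.eval z (lag B j a) = lv (B j) a (z j) := by
  unfold lag lv
  rw [map_prod]
  refine Finset.prod_congr rfl fun b _ => ?_
  simp

theorem degreeOf_lag (B : Fin n → Fin (k + 1) → ℝ) (j : Fin n) (a : Fin (k + 1)) (i : Fin n) :
    (lag B j a).degreeOf i ≤ if i = j then k else 0 := by
  unfold lag
  have h1 : ∀ b ∈ univ.erase a, (MvPolynomial.C ((B j a - B j b)⁻¹) *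
      (MvPolynomial.X j - MvPolynomial.C (B j b)) : MvPolynomial (Fin n) ℝ).degreeOf i
        ≤ if i = j then 1 else 0 := by
    intro b _
    refine (MvPolynomial.degreeOf_mul_le _ _ _).trans ?_
    rw [MvPolynomial.degreeOf_C, Nat.zero_add]
    refine (MvPolynomial.degreeOf_sub_le _ _ _).trans ?_
    rw [MvPolynomial.degreeOf_C, MvPolynomial.degreeOf_X]
    split_ifs <;> simp
  refine (MvPolynomial.degreeOf_prod_le _ _ _).trans ?_
  refine (Finset.sum_le_sum h1).trans ?_
  rw [Finset.sum_const, Finset.card_erase_of_mem (Finset.mem_univ a), Finset.card_univ,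
    Fintype.card_fin, Nat.add_sub_cancel]
  split_ifs <;> simp

/-- A polynomial of degree zero in the variable `j` does not depend on it. -/
theorem eval_update (q : MvPolynomial (Fin n) ℝ) (j : Fin n) (hq : q.degreeOf j = 0)
    (z : Fin n → ℝ) (t : ℝ) :
    MvPolynomial.eval (Function.update z j t) q = MvPolynomial.eval z q := by
  rw [MvPolynomial.eval_eq, MvPolynomial.eval_eq]
  refine Finset.sum_congr rfl fun d hd => ?_
  congr 1
  refine Finset.prod_congr rfl fun i _ => ?_
  by_cases hij : i = j
  · subst hij
    have h1 : d i ≤ q.degreeOf i := MvPolynomial.monomial_le_degreeOf i hd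
    have h2 : d i = 0 := by omega
    rw [h2, pow_zero, pow_zero]
  · rw [Function.update_of_ne hij]

theorem main (B : Fin n → Fin (k + 1) → ℝ) (f : (Fin n → ℝ) → ℝ) (s N : ℝ) (hs : 0 < s)
    (hsN : s ≤ N) (hB : ∀ i a b, a ≠ b → s ≤ |B i a - B i b|) (S : Finset (Fin n)) :
    ∃ q : (Fin n → ℝ) → MvPolynomial (Fin n) ℝ,
      (∀ z z', (∀ j, j ∉ S → z j = z' j) → q z = q z') ∧
      (∀ z i, (q z).degreeOf i ≤ if i ∈ S then k else 0) ∧
      ∀ (x : Fin n → ℝ) (E : ℝ), 0 ≤ E → (∀ i a, |x i - B i a| ≤ N) →
        (∀ (i : Fin n) (z : Fin n → ℝ), (∀ j, z j = x j ∨ ∃ a, z j = B j a) →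
          ∃ P : Polynomial ℝ, P.natDegree ≤ k ∧ ∀ y : ℝ, (y = x i ∨ ∃ a, y = B i a) →
            |f (Function.update z i y) - P.eval y| ≤ E) →
        ∀ z : Fin n → ℝ, (∀ j, z j = x j ∨ ∃ a, z j = B j a) → (∀ j ∈ S, z j = x j) →
          |f z - MvPolynomial.eval z (q z)| ≤
            2 * (S.card : ℝ) * (((k : ℝ) + 1) * (N / s) ^ k) ^ S.card * E := by
  classical
  induction S using Finset.induction_on with
  | empty =>
    refine ⟨fun z => MvPolynomial.C (f z), ?_, ?_, ?_⟩
    · intro z z' h
      have : z = z' := funext fun j => h j (Finset.notMem_empty j)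
      rw [this]
    · intro z i
      rw [MvPolynomial.degreeOf_C]
      exact Nat.zero_le _
    · intro x E _ _ _ z _ _
      simp
  | insert j S hj ih =>
    obtain ⟨q, hq1, hq2, hq3⟩ := ih
    refine ⟨fun z => ∑ a, q (Function.update z j (B j a)) * lag B j a, ?_, ?_, ?_⟩
    · intro z z' h
      refine Finset.sum_congr rfl fun a _ => ?_
      rw [hq1 (Function.update z j (B j a)) (Function.update z' j (B j a))]
      intro i hi
      by_cases hij : i = j
      · subst hij; rw [Function.update_self, Function.update_self]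
      · rw [Function.update_of_ne hij, Function.update_of_ne hij]
        refine h i fun hmem => ?_
        rcases Finset.mem_insert.1 hmem with h1 | h1
        · exact hij h1
        · exact hi h1
    · intro z i
      refine (MvPolynomial.degreeOf_sum_le _ _ _).trans ?_
      refine Finset.sup_le fun a _ => ?_
      refine (MvPolynomial.degreeOf_mul_le _ _ _).trans ?_
      have h1 := hq2 (Function.update z j (B j a)) i
      have h2 := degreeOf_lag B j a i
      by_cases hij : i = j
      · subst hij
        rw [if_neg hj] at h1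
        rw [if_pos rfl] at h2
        rw [if_pos (Finset.mem_insert_self _ _)]
        omega
      · rw [if_neg hij] at h2
        by_cases hiS : i ∈ S
        · rw [if_pos hiS] at h1
          rw [if_pos (Finset.mem_insert_of_mem hiS)]
          omega
        · rw [if_neg hiS] at h1
          omega
    · intro x E hE hx hf z hz hzS
      set Λ : ℝ := ((k : ℝ) + 1) * (N / s) ^ k with hΛ
      have hNs : 1 ≤ N / s := (one_le_div hs).2 hsN
      have hpk : 1 ≤ (N / s) ^ k := one_le_pow₀ hNs
      have hk0 : (0 : ℝ) ≤ k := Nat.cast_nonneg k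
      have hΛ1 : 1 ≤ Λ := by rw [hΛ]; nlinarith
      have hzj : z j = x j := hzS j (Finset.mem_insert_self _ _)
      obtain ⟨P, hP, hPf⟩ := hf j z hz
      have hinj : Function.Injective (B j) := by
        intro a b hab
        by_contra hne
        have := hB j a b hne
        rw [hab, sub_self, abs_zero] at this
        linarith
      have hlv : ∀ a, |lv (B j) a (z j)| ≤ (N / s) ^ k := by
        intro a
        refine lv_bound (B j) s N (z j) hs (hB j) (fun b => ?_) a
        rw [hzj]; exact hx j b
      -- the values at the nodes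
      have h1 : ∀ a, |f (Function.update z j (B j a)) - P.eval (B j a)| ≤ E :=
        fun a => hPf (B j a) (Or.inr ⟨a, rfl⟩)
      have h2 : |f z - P.eval (z j)| ≤ E := by
        have h3 := hPf (z j) (Or.inl hzj)
        rwa [Function.update_eq_self] at h3
      have h3 : ∀ a, |f (Function.update z j (B j a)) -
          MvPolynomial.eval (Function.update z j (B j a)) (q (Function.update z j (B j a)))| ≤
            2 * (S.card : ℝ) * Λ ^ S.card * E := by
        intro a
        refine hq3 x E hE hx hf _ (fun i => ?_) (fun i hi => ?_)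
        · by_cases hij : i = j
          · subst hij; right; exact ⟨a, by rw [Function.update_self]⟩
          · rw [Function.update_of_ne hij]; exact hz i
        · have hij : i ≠ j := fun h => hj (h ▸ hi)
          rw [Function.update_of_ne hij]
          exact hzS i (Finset.mem_insert_of_mem hi)
      have h4 : ∀ a, MvPolynomial.eval z (q (Function.update z j (B j a))) =
          MvPolynomial.eval (Function.update z j (B j a)) (q (Function.update z j (B j a))) := by
        intro a
        rw [eval_update _ j _ z (B j a)]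
        have := hq2 (Function.update z j (B j a)) j
        rw [if_neg hj] at this
        omega
      have h5 : f z - MvPolynomial.eval z (∑ a, q (Function.update z j (B j a)) * lag B j a) =
          (f z - P.eval (z j)) + ∑ a, ((P.eval (B j a) - f (Function.update z j (B j a))) +
            (f (Function.update z j (B j a)) - MvPolynomial.eval (Function.update z j (B j a))
              (q (Function.update z j (B j a))))) * lv (B j) a (z j) := by
        rw [map_sum]
        have h6 := interp (B j) hinj P hP (z j)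
        rw [h6]
        have h7 : ∀ a, MvPolynomial.eval z (q (Function.update z j (B j a)) * lag B j a) =
            MvPolynomial.eval (Function.update z j (B j a)) (q (Function.update z j (B j a))) *
              lv (B j) a (z j) := by
          intro a
          rw [map_mul, eval_lag, h4]
        rw [Finset.sum_congr rfl fun a _ => h7 a]
        rw [sub_add_eq_add_sub, add_sub_assoc, ← Finset.sum_sub_distrib, sub_eq_add_neg,
          ← Finset.sum_neg_distrib]
        congr 1
        refine Finset.sum_congr rfl fun a _ => ?_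
        ring
      rw [h5]
      have h8 : |∑ a, ((P.eval (B j a) - f (Function.update z j (B j a))) +
            (f (Function.update z j (B j a)) - MvPolynomial.eval (Function.update z j (B j a))
              (q (Function.update z j (B j a))))) * lv (B j) a (z j)| ≤
          ∑ _a : Fin (k + 1), (E + 2 * (S.card : ℝ) * Λ ^ S.card * E) * (N / s) ^ k := by
        refine (Finset.abs_sum_le_sum_abs _ _).trans (Finset.sum_le_sum fun a _ => ?_)
        rw [abs_mul]
        refine mul_le_mul ?_ (hlv a) (abs_nonneg _) ?_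
        · refine (abs_add_le _ _).trans (add_le_add ?_ (h3 a))
          rw [abs_sub_comm]; exact h1 a
        · positivity
      rw [Finset.sum_const, Finset.card_univ, Fintype.card_fin, nsmul_eq_mul] at h8
      rw [Finset.card_insert_of_notMem hj]
      refine (abs_add_le _ _).trans ?_
      have h9 : ((k + 1 : ℕ) : ℝ) * ((E + 2 * (S.card : ℝ) * Λ ^ S.card * E) * (N / s) ^ k) =
          Λ * E + 2 * (S.card : ℝ) * Λ ^ (S.card + 1) * E := by
        push_cast
        rw [pow_succ, hΛ]
        ring
      rw [h9] at h8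
      have h10 : Λ ≤ Λ ^ (S.card + 1) := le_self_pow₀ hΛ1 (Nat.succ_ne_zero _)
      have h11 : (1 : ℝ) ≤ Λ ^ (S.card + 1) := one_le_pow₀ hΛ1
      have h12 : E ≤ Λ ^ (S.card + 1) * E := le_mul_of_one_le_left hE h11
      have h13 : Λ * E ≤ Λ ^ (S.card + 1) * E := mul_le_mul_of_nonneg_right h10 hE
      push_cast
      linarith

end Pool.KAL.BXI

namespace Pool.KAL

theorem bxi_thm : BXIStmt := by
  intro n k
  have hk0 : (0 : ℝ) ≤ k := Nat.cast_nonneg k
  refine ⟨2 * (n : ℝ) * ((k : ℝ) + 1) ^ n + 1, ?_, ?_⟩
  · have : (0 : ℝ) ≤ 2 * (n : ℝ) * ((k : ℝ) + 1) ^ n := by positivity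
    linarith
  intro B f s N hs hsN hB
  obtain ⟨q, hq1, hq2, hq3⟩ := BXI.main B f s N hs hsN hB Finset.univ
  refine ⟨q 0, fun i => ?_, ?_⟩
  · have := hq2 0 i
    rwa [if_pos (Finset.mem_univ i)] at this
  intro x E hE hx hf
  have h1 := hq3 x E hE hx hf x (fun j => Or.inl rfl) (fun j _ => rfl)
  have h2 : q x = q 0 := hq1 x 0 fun j hj => absurd (Finset.mem_univ j) hj
  rw [h2, Finset.card_univ, Fintype.card_fin, mul_pow, ← pow_mul, mul_comm k n] at h1
  refine h1.trans ?_
  refine mul_le_mul_of_nonneg_right ?_ hE
  have h3 : (0 : ℝ) ≤ (N / s) ^ (n * k) := by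
    have : 0 ≤ N / s := div_nonneg (hs.le.trans hsN) hs.le
    positivity
  rw [← mul_assoc]
  refine mul_le_mul_of_nonneg_right ?_ h3
  linarith

end Pool.KAL
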