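import Pool.Agent.H56.KAL.Stmts

/-!
# The box lemma

A function on a dense subset of a grid which is a polynomial up to an error on every line parallel
to an axis is a polynomial on a dense subset.
-/

set_option autoImplicit false

namespace Pool.KAL.BOX

open Finset Real

variable {n r N : ℕ}

/-- Replace one entry. -/
def upd (i : Fin n) (a : Fin r) (y : Fin n → Fin r → Fin N) (v : Fin N) :
    Fin n → Fin r → Fin N :=
  Function.update y i (Function.update (y i) a v)

theorem upd_self (i : Fin n) (a : Fin r) (y : Fin n → Fin r → Fin N) (v : Fin N) :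
    upd i a y v i a = v := by
  unfold upd
  rw [Function.update_self, Function.update_self]

theorem upd_ne (i : Fin n) (a b : Fin r) (hab : b ≠ a) (y : Fin n → Fin r → Fin N) (v : Fin N) :
    upd i a y v i b = y i b := by
  unfold upd
  rw [Function.update_self, Function.update_of_ne hab]

theorem upd_upd (i : Fin n) (a : Fin r) (y : Fin n → Fin r → Fin N) (v : Fin N) :
    upd i a (upd i a y v) (y i a) = y := by
  unfold upd
  rw [Function.update_self, Function.update_idem, Function.update_idem, Function.update_eq_self,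
    Function.update_eq_self]

/-- Exchange an entry of the grid with a free value. -/
def swp (i : Fin n) (a : Fin r) (w : (Fin n → Fin r → Fin N) × Fin N) :
    (Fin n → Fin r → Fin N) × Fin N :=
  (upd i a w.1 w.2, w.1 i a)

theorem swp_invol (i : Fin n) (a : Fin r) :
    Function.Involutive (swp (N := N) i a) := by
  intro w
  show (upd i a (upd i a w.1 w.2) (w.1 i a), upd i a w.1 w.2 i a) = w
  rw [upd_upd, upd_self]

/-- Few integers are close to a given one. -/
theorem close_card (w : ℕ) (s : ℝ) (hs : 1 ≤ s) :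
    ((univ.filter fun v : Fin N => |((v : ℕ) : ℝ) - (w : ℝ)| < s).card : ℝ) ≤ 3 * s := by
  classical
  have h1 : (univ.filter fun v : Fin N => |((v : ℕ) : ℝ) - (w : ℝ)| < s).card ≤
      (Finset.Icc ((w : ℤ) - ⌊s⌋) ((w : ℤ) + ⌊s⌋)).card := by
    refine Finset.card_le_card_of_injOn (fun v : Fin N => ((v : ℕ) : ℤ)) ?_ ?_
    · intro v hv
      have hv2 : |((v : ℕ) : ℝ) - (w : ℝ)| < s := by
        have := Finset.mem_coe.1 hv
        exact (Finset.mem_filter.1 this).2
      have h2 : |((v : ℕ) : ℤ) - (w : ℤ)| ≤ ⌊s⌋ := by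
        rw [Int.le_floor]
        push_cast
        exact hv2.le
      have h3 := abs_le.1 h2
      refine Finset.mem_coe.2 (Finset.mem_Icc.2 ⟨?_, ?_⟩)
      · linarith only [h3, h3.1]
      · linarith only [h3, h3.2]
    · intro v _ v' _ h
      have h4 : ((v : ℕ) : ℤ) = ((v' : ℕ) : ℤ) := h
      exact Fin.ext (by exact_mod_cast h4)
  have h5 : ((Finset.Icc ((w : ℤ) - ⌊s⌋) ((w : ℤ) + ⌊s⌋)).card : ℝ) ≤ 2 * s + 1 := by
    rw [Int.card_Icc]
    have h6 : 0 ≤ ⌊s⌋ := Int.floor_nonneg.2 (by linarith only [hs])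
    have h7 : (0 : ℤ) ≤ (w : ℤ) + ⌊s⌋ + 1 - ((w : ℤ) - ⌊s⌋) := by linarith only [h6]
    have h8 : ((((w : ℤ) + ⌊s⌋ + 1 - ((w : ℤ) - ⌊s⌋)).toNat : ℕ) : ℝ) =
        (((w : ℤ) + ⌊s⌋ + 1 - ((w : ℤ) - ⌊s⌋) : ℤ) : ℝ) := by
      have h9 := Int.toNat_of_nonneg h7
      exact_mod_cast h9
    rw [h8]
    push_cast
    have := Int.floor_le s
    linarith only [this]
  have h10 : ((univ.filter fun v : Fin N => |((v : ℕ) : ℝ) - (w : ℝ)| < s).card : ℝ) ≤
      ((Finset.Icc ((w : ℤ) - ⌊s⌋) ((w : ℤ) + ⌊s⌋)).card : ℝ) := by exact_mod_cast h1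
  linarith only [hs, h5, h10]

theorem card_grid : (Fintype.card (Fin n → Fin r → Fin N) : ℝ) = (N : ℝ) ^ (n * r) := by
  rw [Fintype.card_pi, Finset.prod_const, Fintype.card_pi, Finset.prod_const, Fintype.card_fin,
    Finset.card_univ, Finset.card_univ, Fintype.card_fin, Fintype.card_fin]
  push_cast
  rw [← pow_mul, mul_comm r n]

/-- Few grids have two close nodes. -/
theorem bad_card (i : Fin n) (a b : Fin r) (hab : b ≠ a) (s : ℝ) (hs : 1 ≤ s) :
    (N : ℝ) * ((univ.filter fun y : Fin n → Fin r → Fin N =>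
      |((y i a : ℕ) : ℝ) - ((y i b : ℕ) : ℝ)| < s).card : ℝ) ≤ 3 * s * (N : ℝ) ^ (n * r) := by
  classical
  set F : (Fin n → Fin r → Fin N) → ℝ := fun y =>
    if |((y i a : ℕ) : ℝ) - ((y i b : ℕ) : ℝ)| < s then 1 else 0 with hF
  have h1 : ((univ.filter fun y : Fin n → Fin r → Fin N =>
      |((y i a : ℕ) : ℝ) - ((y i b : ℕ) : ℝ)| < s).card : ℝ) = ∑ y, F y := by
    rw [hF, Finset.sum_boole]
  have h2 : (N : ℝ) * ∑ y, F y = ∑ w : (Fin n → Fin r → Fin N) × Fin N, F w.1 := by
    rw [Fintype.sum_prod_type]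
    simp only [Finset.sum_const, Finset.card_univ, Fintype.card_fin, nsmul_eq_mul]
    rw [Finset.mul_sum]
  have h3 : ∑ w : (Fin n → Fin r → Fin N) × Fin N, F w.1 =
      ∑ w : (Fin n → Fin r → Fin N) × Fin N, F (swp i a w).1 := by
    symm
    exact Fintype.sum_equiv (swp_invol i a).toPerm _ _ fun w => rfl
  rw [h1, h2, h3, Fintype.sum_prod_type]
  have h4 : ∀ y : Fin n → Fin r → Fin N, ∑ v : Fin N, F (swp i a (y, v)).1 ≤ 3 * s := by
    intro y
    have h5 : ∀ v : Fin N, F (swp i a (y, v)).1 =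
        if |((v : ℕ) : ℝ) - ((y i b : ℕ) : ℝ)| < s then 1 else 0 := by
      intro v
      rw [hF]
      show (if |((upd i a y v i a : ℕ) : ℝ) - ((upd i a y v i b : ℕ) : ℝ)| < s
        then (1 : ℝ) else 0) = _
      rw [upd_self, upd_ne i a b hab]
    rw [Finset.sum_congr rfl fun v _ => h5 v, Finset.sum_boole]
    exact close_card _ s hs
  refine (Finset.sum_le_sum fun y _ => h4 y).trans ?_
  rw [Finset.sum_const, Finset.card_univ, nsmul_eq_mul, card_grid]
  linarith only

/-- Grids in `X` whose nodes are separated. -/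
theorem good_card (G : Finset (Fin n → Fin r → Fin N)) (g s : ℝ)
    (hN : 1 ≤ N) (hs : 1 ≤ s) (hG : g * (N : ℝ) ^ (n * r) ≤ G.card)
    (hsg : 6 * ((n : ℝ) + 1) * (r : ℝ) ^ 2 * s ≤ g * N) :
    g / 2 * (N : ℝ) ^ (n * r) ≤ ((G.filter fun y => ∀ (i : Fin n) (a b : Fin r), b ≠ a →
      s ≤ |((y i a : ℕ) : ℝ) - ((y i b : ℕ) : ℝ)|).card : ℝ) := by
  classical
  have hN0 : (0 : ℝ) < N := by exact_mod_cast hN
  set H : Finset (Fin n → Fin r → Fin N) := G.filter fun y => ∀ (i : Fin n) (a b : Fin r),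
    b ≠ a → s ≤ |((y i a : ℕ) : ℝ) - ((y i b : ℕ) : ℝ)| with hH
  have h1 : G ⊆ H ∪ (univ : Finset (Fin n × Fin r × Fin r)).biUnion fun w =>
      if w.2.2 ≠ w.2.1 then (univ.filter fun y : Fin n → Fin r → Fin N =>
        |((y w.1 w.2.1 : ℕ) : ℝ) - ((y w.1 w.2.2 : ℕ) : ℝ)| < s) else ∅ := by
    intro y hy
    by_cases h : ∀ (i : Fin n) (a b : Fin r), b ≠ a →
        s ≤ |((y i a : ℕ) : ℝ) - ((y i b : ℕ) : ℝ)|
    · exact Finset.mem_union_left _ (Finset.mem_filter.2 ⟨hy, h⟩)
    · push Not at h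
      obtain ⟨i, a, b, hab, h2⟩ := h
      refine Finset.mem_union_right _ (Finset.mem_biUnion.2 ⟨(i, a, b), Finset.mem_univ _, ?_⟩)
      rw [if_pos (show ((i, a, b) : Fin n × Fin r × Fin r).2.2 ≠
        ((i, a, b) : Fin n × Fin r × Fin r).2.1 from hab)]
      exact Finset.mem_filter.2 ⟨Finset.mem_univ _, h2⟩
  have h2 : (G.card : ℝ) ≤ H.card + ∑ w : Fin n × Fin r × Fin r,
      3 * s * (N : ℝ) ^ (n * r) / N := by
    have h3 := (Finset.card_le_card h1).trans (Finset.card_union_le _ _)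
    have h4 := h3.trans (Nat.add_le_add_left Finset.card_biUnion_le _)
    have h5 : (G.card : ℝ) ≤ H.card + ∑ w : Fin n × Fin r × Fin r,
        (((if w.2.2 ≠ w.2.1 then (univ.filter fun y : Fin n → Fin r → Fin N =>
        |((y w.1 w.2.1 : ℕ) : ℝ) - ((y w.1 w.2.2 : ℕ) : ℝ)| < s) else ∅ :
          Finset (Fin n → Fin r → Fin N)).card : ℕ) : ℝ) := by
      exact_mod_cast h4
    refine h5.trans (add_le_add_right (Finset.sum_le_sum fun w _ => ?_) _)
    by_cases h6 : w.2.2 ≠ w.2.1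
    · rw [if_pos h6, le_div_iff₀ hN0, mul_comm]
      exact bad_card w.1 w.2.1 w.2.2 h6 s hs
    · rw [if_neg h6, Finset.card_empty, Nat.cast_zero]
      positivity
  rw [Finset.sum_const, Finset.card_univ, nsmul_eq_mul, Fintype.card_prod, Fintype.card_prod,
    Fintype.card_fin, Fintype.card_fin] at h2
  have hP : (0 : ℝ) < (N : ℝ) ^ (n * r) := by positivity
  have h7 : ((n * (r * r) : ℕ) : ℝ) * (3 * s * (N : ℝ) ^ (n * r) / N) ≤
      g / 2 * (N : ℝ) ^ (n * r) := by
    rw [mul_div_assoc', div_le_iff₀ hN0]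
    push_cast
    have h8 : (n : ℝ) * ((r : ℝ) * r) * (3 * s) ≤ g / 2 * N := by
      have h9 : (0 : ℝ) ≤ (r : ℝ) ^ 2 * s := by positivity
      nlinarith only [hsg, h9]
    calc (n : ℝ) * ((r : ℝ) * r) * (3 * s * (N : ℝ) ^ (n * r))
        = ((n : ℝ) * ((r : ℝ) * r) * (3 * s)) * (N : ℝ) ^ (n * r) := by ring
      _ ≤ (g / 2 * N) * (N : ℝ) ^ (n * r) := mul_le_mul_of_nonneg_right h8 hP.le
      _ = g / 2 * (N : ℝ) ^ (n * r) * N := by ring
  linarith only [hG, h2, h7]

/-- The node part of a grid. -/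
def nod {k : ℕ} (y : Fin n → Fin (k + 2) → Fin N) : Fin n → Fin (k + 1) → Fin N :=
  fun i a => y i a.castSucc

/-- The last column of a grid. -/
def lst {k : ℕ} (y : Fin n → Fin (k + 2) → Fin N) : Fin n → Fin N :=
  fun i => y i (Fin.last (k + 1))

theorem ext_nod_lst {k : ℕ} (y y' : Fin n → Fin (k + 2) → Fin N) (h1 : nod y = nod y')
    (h2 : lst y = lst y') : y = y' := by
  funext i a
  refine Fin.lastCases ?_ (fun b => ?_) a
  · exact congrFun h2 i
  · exact congrFun (congrFun h1 i) b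

/-- Round a real number to an element of `Fin N`. -/
noncomputable def rd (hN : 0 < N) (t : ℝ) : Fin N := ⟨⌊t⌋₊ % N, Nat.mod_lt _ hN⟩

theorem rd_cast (hN : 0 < N) (v : Fin N) : rd hN ((v : ℕ) : ℝ) = v := by
  unfold rd
  refine Fin.ext ?_
  show ⌊((v : ℕ) : ℝ)⌋₊ % N = v
  rw [Nat.floor_natCast, Nat.mod_eq_of_lt v.2]

theorem rd_update (hN : 0 < N) (z : Fin n → ℝ) (i : Fin n) (v : Fin N) :
    (fun j => rd hN (Function.update z i ((v : ℕ) : ℝ) j)) =
      Function.update (fun j => rd hN (z j)) i v := by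
  funext j
  by_cases hj : j = i
  · subst hj
    rw [Function.update_self, Function.update_self, rd_cast]
  · rw [Function.update_of_ne hj, Function.update_of_ne hj]

end Pool.KAL.BOX

namespace Pool.KAL

open Finset Real BOX

theorem box_thm (hBXC : BXCStmt) (hBXI : BXIStmt) : BOXStmt := by
  classical
  intro n k
  obtain ⟨D, hD1, hBXI⟩ := hBXI n k
  -- constants
  set r : ℕ := k + 2 with hr
  set K : ℕ := r ^ n with hK
  set c : ℝ := 1 / (6 * ((n : ℝ) + 1) * (r : ℝ) ^ 2) with hc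
  have hn0 : (0 : ℝ) ≤ n := Nat.cast_nonneg n
  have hr0 : (0 : ℝ) < r := by rw [hr]; positivity
  have hden : (0 : ℝ) < 6 * ((n : ℝ) + 1) * (r : ℝ) ^ 2 := by positivity
  have hc0 : 0 < c := by rw [hc]; positivity
  set C1 : ℕ := ⌈D * (1 / c) ^ (n * k)⌉₊ with hC1
  set C2 : ℕ := ⌈1 / c⌉₊ with hC2
  refine ⟨C1 + C2 + K + K * (n * k) + 2, by omega, ?_⟩
  intro N X f σ E hσ hσ1 hE hCN hX hf
  set C : ℕ := C1 + C2 + K + K * (n * k) + 2 with hC
  have hCR : (C : ℝ) = C1 + C2 + K + K * (n * k) + 2 := by rw [hC]; push_cast; ring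
  have hC1C : (C1 : ℝ) ≤ C := by rw [hCR]; have : (0:ℝ) ≤ C2 + K + K * (n * k) + 2 := by positivity
                                 linarith only [this]
  have hC2C : (C2 : ℝ) ≤ C := by rw [hCR]; have : (0:ℝ) ≤ C1 + K + K * (n * k) + 2 := by positivity
                                 linarith only [this]
  have h2C : (2 : ℝ) ≤ C := by rw [hCR]; have : (0:ℝ) ≤ C1 + C2 + K + K * (n * k) := by positivity
                               linarith only [this]
  have hKC : K ≤ C := by rw [hC]; omega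
  have hKKC : K * (n * k) ≤ C := by rw [hC]; omega
  have hσK : σ ^ C ≤ σ ^ K := pow_le_pow_of_le_one hσ.le hσ1 hKC
  have hσC0 : 0 < σ ^ C := pow_pos hσ _
  have hσK0 : 0 < σ ^ K := pow_pos hσ _
  -- `N` is positive
  have hNpos : 0 < N := by
    rcases Nat.eq_zero_or_pos N with h | h
    · rw [h, Nat.cast_zero, mul_zero] at hCN
      linarith only [hCN, h2C]
    · exact h
  have hN0 : (0 : ℝ) < N := by exact_mod_cast hNpos
  have hCN2 : (C : ℝ) ≤ σ ^ K * N := hCN.trans (mul_le_mul_of_nonneg_right hσK hN0.le)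
  set s : ℝ := c * σ ^ K * N with hs
  have hs1 : 1 ≤ s := by
    have h1 : 1 / c ≤ σ ^ K * N := (Nat.le_ceil _).trans (hC2C.trans hCN2)
    have h2 : c * (1 / c) ≤ c * (σ ^ K * N) := mul_le_mul_of_nonneg_left h1 hc0.le
    rw [mul_one_div_cancel hc0.ne'] at h2
    rw [hs, mul_assoc]
    exact h2
  -- grids in `X`
  set G : Finset (Fin n → Fin r → Fin N) := univ.filter fun y : Fin n → Fin r → Fin N =>
      ∀ a : Fin n → Fin r, (fun i => y i (a i)) ∈ X with hG
  have hG1 : σ ^ K * (N : ℝ) ^ (n * r) ≤ G.card := by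
    have h1 := hBXC n r N X σ hNpos hσ.le hX
    exact h1
  have hsg : 6 * ((n : ℝ) + 1) * (r : ℝ) ^ 2 * s ≤ σ ^ K * N := by
    rw [hs, hc]
    refine le_of_eq ?_
    field_simp
  have hH1 := good_card G (σ ^ K) s hNpos hs1 hG1 hsg
  set H : Finset (Fin n → Fin r → Fin N) := G.filter fun y => ∀ (i : Fin n) (a b : Fin r),
    b ≠ a → s ≤ |((y i a : ℕ) : ℝ) - ((y i b : ℕ) : ℝ)| with hH
  -- pigeonhole over the nodes
  have hne : (univ : Finset (Fin n → Fin (k + 1) → Fin N)).Nonempty :=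
    ⟨fun _ _ => ⟨0, hNpos⟩, Finset.mem_univ _⟩
  have hpig : (univ : Finset (Fin n → Fin (k + 1) → Fin N)).card • (σ ^ K / 2 * (N : ℝ) ^ n) ≤
      (H.card : ℝ) := by
    rw [Finset.card_univ, nsmul_eq_mul, card_grid]
    refine le_trans (le_of_eq ?_) hH1
    have h1 : n * r = n * (k + 1) + n := by rw [hr]; ring
    rw [h1, pow_add]
    ring
  obtain ⟨B, -, hB⟩ := Finset.exists_le_card_fiber_of_nsmul_le_card_of_maps_to
    (s := H) (t := (univ : Finset (Fin n → Fin (k + 1) → Fin N))) (f := nod)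
    (fun y _ => Finset.mem_univ _) hne hpig
  set L : Finset (Fin n → Fin r → Fin N) := H.filter fun y => nod y = B with hL
  have hL0 : 0 < L.card := by
    have h1 : (0 : ℝ) < σ ^ K / 2 * (N : ℝ) ^ n := by positivity
    have h2 : (0 : ℝ) < (L.card : ℝ) := lt_of_lt_of_le h1 hB
    exact_mod_cast h2
  have hLmem : ∀ y ∈ L, (∀ a : Fin n → Fin r, (fun i => y i (a i)) ∈ X) ∧
      (∀ (i : Fin n) (a b : Fin r), b ≠ a → s ≤ |((y i a : ℕ) : ℝ) - ((y i b : ℕ) : ℝ)|) ∧
      nod y = B := by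
    intro y hy
    have h1 := Finset.mem_filter.1 hy
    have h2 := Finset.mem_filter.1 h1.1
    have h3 := Finset.mem_filter.1 h2.1
    exact ⟨h3.2, h2.2, h1.2⟩
  -- the nodes are separated
  set B' : Fin n → Fin (k + 1) → ℝ := fun i a => ((B i a : ℕ) : ℝ) with hB'
  have hsep : ∀ i a b, a ≠ b → s ≤ |B' i a - B' i b| := by
    obtain ⟨y, hy⟩ := Finset.card_pos.1 hL0
    obtain ⟨-, h2, h3⟩ := hLmem y hy
    intro i a b hab
    have h4 := h2 i a.castSucc b.castSucc (fun h => hab (Fin.castSucc_injective _ h).symm)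
    have h5 : y i a.castSucc = B i a := congrFun (congrFun h3 i) a
    have h6 : y i b.castSucc = B i b := congrFun (congrFun h3 i) b
    rw [h5, h6] at h4
    exact h4
  have hsN : s ≤ N := by
    have h1 : c ≤ 1 := by
      rw [hc, div_le_one hden]
      have h2 : (1 : ℝ) ≤ r := by rw [hr]; push_cast; have : (0:ℝ) ≤ k := Nat.cast_nonneg k
                                  linarith only
      have h3 : (1 : ℝ) ≤ (r : ℝ) ^ 2 := one_le_pow₀ h2
      nlinarith only [hden, h3]
    have h2 : σ ^ K ≤ 1 := pow_le_one₀ hσ.le hσ1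
    have h3 : c * σ ^ K ≤ 1 := by nlinarith only [h1, hc0, h2]
    rw [hs]
    nlinarith only [h3]
  set f' : (Fin n → ℝ) → ℝ := fun z => f fun i => rd hNpos (z i) with hf'
  obtain ⟨Q, hQ1, hQ2⟩ := hBXI B' f' s N (by linarith only [hs1]) hsN hsep
  refine ⟨Q, hQ1, L.image lst, ?_, ?_, ?_⟩
  · intro x hx
    obtain ⟨y, hy, rfl⟩ := Finset.mem_image.1 hx
    exact (hLmem y hy).1 fun _ => Fin.last (k + 1)
  · have h1 : (L.image lst).card = L.card := by
      refine Finset.card_image_of_injOn ?_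
      intro y hy y' hy' h
      refine ext_nod_lst y y' ?_ h
      rw [(hLmem y (Finset.mem_coe.1 hy)).2.2, (hLmem y' (Finset.mem_coe.1 hy')).2.2]
    rw [h1]
    have h2 : σ ^ C * (N : ℝ) ^ n ≤ σ ^ K * (N : ℝ) ^ n :=
      mul_le_mul_of_nonneg_right hσK (by positivity)
    have h3 : (2 : ℝ) * (L.card : ℝ) ≤ C * (L.card : ℝ) :=
      mul_le_mul_of_nonneg_right h2C (Nat.cast_nonneg _)
    linarith only [hB, h2, h3]
  · intro x hx
    obtain ⟨y, hy, rfl⟩ := Finset.mem_image.1 hx
    obtain ⟨hyX, -, hyB⟩ := hLmem y hy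
    have hcoord : ∀ (v w : Fin N), |((v : ℕ) : ℝ) - ((w : ℕ) : ℝ)| ≤ N := by
      intro v w
      have h1 : ((v : ℕ) : ℝ) ≤ N := by exact_mod_cast v.2.le
      have h2 : ((w : ℕ) : ℝ) ≤ N := by exact_mod_cast w.2.le
      have h3 : (0 : ℝ) ≤ ((v : ℕ) : ℝ) := Nat.cast_nonneg _
      have h4 : (0 : ℝ) ≤ ((w : ℕ) : ℝ) := Nat.cast_nonneg _
      rw [abs_le]
      constructor <;> linarith
    have hmain := hQ2 (fun i => ((lst y i : ℕ) : ℝ)) E hE
      (fun i a => hcoord (lst y i) (B i a)) ?_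
    · have h1 : f' (fun i => ((lst y i : ℕ) : ℝ)) = f (lst y) := by
        rw [hf']
        show f (fun i => rd hNpos (((lst y i : ℕ) : ℝ))) = f (lst y)
        congr 1
        funext i
        exact rd_cast hNpos _
      rw [h1] at hmain
      refine hmain.trans ?_
      refine mul_le_mul_of_nonneg_right ?_ hE
      have h2 : (N : ℝ) / s = (1 / c) * (1 / σ) ^ K := by
        have h7 : σ ^ K * (1 / σ) ^ K = 1 := by
          rw [← mul_pow, mul_one_div_cancel hσ.ne', one_pow]
        rw [div_eq_iff (by linarith only [hs1] : s ≠ 0) , hs]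
        calc (N : ℝ) = (1 / c * c) * (σ ^ K * (1 / σ) ^ K) * N := by
              rw [h7, one_div_mul_cancel hc0.ne', one_mul, one_mul]
          _ = 1 / c * (1 / σ) ^ K * (c * σ ^ K * N) := by ring
      rw [h2, mul_pow, ← pow_mul, ← mul_assoc]
      have h3 : D * (1 / c) ^ (n * k) ≤ C := (Nat.le_ceil _).trans hC1C
      have h4 : (1 / σ) ^ (K * (n * k)) ≤ (1 / σ) ^ C :=
        pow_le_pow_right₀ ((one_le_div hσ).2 hσ1) hKKC
      have h5 : (0 : ℝ) ≤ (1 / σ) ^ (K * (n * k)) := by positivity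
      exact mul_le_mul h3 h4 h5 (Nat.cast_nonneg _)
    · intro i z hz
      obtain ⟨P, hP1, hP2⟩ := hf i fun j => rd hNpos (z j)
      refine ⟨P, hP1, ?_⟩
      -- every coordinate is an entry of the grid
      have hent : ∀ (j : Fin n) (t : ℝ), (t = ((lst y j : ℕ) : ℝ) ∨ ∃ a, t = B' j a) →
          ∃ a : Fin r, t = ((y j a : ℕ) : ℝ) := by
        intro j t ht
        rcases ht with h | ⟨a, h⟩
        · exact ⟨Fin.last (k + 1), h⟩
        · refine ⟨a.castSucc, ?_⟩
          have h5 : y j a.castSucc = B j a := congrFun (congrFun hyB j) a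
          rw [h5, h]
      intro t ht
      obtain ⟨a, ha⟩ := hent i t ht
      have h6 : f' (Function.update z i t) =
          f (Function.update (fun j => rd hNpos (z j)) i (y i a)) := by
        rw [hf', ha]
        show f (fun j => rd hNpos (Function.update z i ((y i a : ℕ) : ℝ) j)) = _
        rw [rd_update]
      rw [h6, ha]
      refine hP2 (y i a) ?_
      choose w hw using fun j => hent j (z j) (hz j)
      have h7 : Function.update (fun j => rd hNpos (z j)) i (y i a) =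
          fun j => y j (Function.update w i a j) := by
        funext j
        by_cases hj : j = i
        · subst hj
          rw [Function.update_self, Function.update_self]
        · rw [Function.update_of_ne hj, Function.update_of_ne hj, hw j, rd_cast]
      rw [h7]
      exact hyX _

end Pool.KAL
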