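import Pool.Agent.H56.KAL.Stmts

/-!
# Pointwise crossing lemma

Pointwise information calculus for a label `Q` which is a function of the position `A` and of the
context `c`, seen from a second position `B`.
-/

set_option autoImplicit false

namespace Pool.KAL

open Finset Real
open Pool.Agent.H49.Ent Pool.Agent.H32.Dense Pool.STK Pool.KAF

/-- The label `Q` is visible from `A` given `c`. Then the information of `B` given `(Q, c)` is
that of `A` given `(Q, c)`, up to the difference of the informations of `A`, `B` given `c`, plus a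
nonnegative term. -/
def PCRStmt : Prop :=
  ∀ (Ω S V W : Type) [Fintype Ω] (p : Ω → ℝ) (A B : Ω → S) (Q : Ω → V) (c : Ω → W), IsLaw p →
    Det p (fun ω => (A ω, c ω)) Q →
    (∀ ω, 0 < p ω → ci p B (fun ω => (Q ω, c ω)) ω =
      ci p A (fun ω => (Q ω, c ω)) ω + (ci p B c ω - ci p A c ω) + ci p Q (fun ω => (B ω, c ω)) ω ∧
      0 ≤ ci p Q (fun ω => (B ω, c ω)) ω) ∧
    ∀ h h₁ e : ℝ, Pr p {ω | ci p B (fun ω => (Q ω, c ω)) ω < h - 3 * e} ≤
      Pr p {ω | e < |ci p B c ω - h₁|} + Pr p {ω | e < |ci p A c ω - h₁|} +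
        Pr p {ω | e < |ci p A (fun ω => (Q ω, c ω)) ω - h|}

/-- A set of at most `N` values of `B`, which depends only on `c`, has small probability if the
information of `B` given `c` is large. -/
def PCNStmt : Prop :=
  ∀ (Ω S W : Type) [Fintype Ω] (p : Ω → ℝ) (B : Ω → S) (c : Ω → W) (E : W → Finset S) (N h : ℝ),
    IsLaw p → (∀ w, ((E w).card : ℝ) ≤ N) →
    Pr p {ω | B ω ∈ E (c ω)} ≤ Pr p {ω | ci p B c ω < h} + N * Real.exp (-h)

/-- Common fans: additional knowledge of a label decreases the information of `D` by at most the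
information of the label. -/
def PCFStmt : Prop :=
  ∀ (Ω S V W : Type) [Fintype Ω] (p : Ω → ℝ) (D : Ω → S) (Q : Ω → V) (c : Ω → W), IsLaw p →
    ∀ ω, 0 < p ω → ci p D c ω - ci p Q c ω ≤ ci p D (fun ω => (Q ω, c ω)) ω

namespace PCR

variable {Ω S T U V : Type} [Fintype Ω]

theorem law_congr (p : Ω → ℝ) (X : Ω → S) (Y : Ω → T) (ω : Ω)
    (h : ∀ v, 0 < p v → (X v = X ω ↔ Y v = Y ω)) (hp : ∀ v, 0 ≤ p v) :
    law p X (X ω) = law p Y (Y ω) := by
  classical
  unfold law
  refine Finset.sum_congr rfl fun v _ => ?_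
  rcases eq_or_lt_of_le (hp v) with h0 | h0
  · rw [← h0]
    simp
  · have h1 := h v h0
    by_cases h2 : X v = X ω
    · rw [if_pos h2, if_pos (h1.1 h2)]
    · rw [if_neg h2, if_neg fun h3 => h2 (h1.2 h3)]

theorem Pr_eq (p : Ω → ℝ) (E : Set Ω) : Pr p E = ∑ ω, E.indicator p ω := by
  classical
  unfold Pr law
  refine Finset.sum_congr rfl fun ω _ => ?_
  by_cases h : ω ∈ E
  · rw [Set.indicator_of_mem h, if_pos (by simpa using h)]
  · rw [Set.indicator_of_notMem h, if_neg (by simpa using h)]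

theorem Pr_le_of (p : Ω → ℝ) (hp : ∀ ω, 0 ≤ p ω) (E F : Set Ω)
    (h : ∀ ω, 0 < p ω → ω ∈ E → ω ∈ F) : Pr p E ≤ Pr p F := by
  rw [Pr_eq, Pr_eq]
  refine Finset.sum_le_sum fun ω _ => ?_
  by_cases hE : ω ∈ E
  · rw [Set.indicator_of_mem hE]
    rcases eq_or_lt_of_le (hp ω) with h0 | h0
    · rw [← h0]
      exact Set.indicator_nonneg (fun v _ => hp v) ω
    · rw [Set.indicator_of_mem (h ω h0 hE)]
  · rw [Set.indicator_of_notMem hE]
    exact Set.indicator_nonneg (fun v _ => hp v) ω

theorem Pr_union (p : Ω → ℝ) (hp : ∀ ω, 0 ≤ p ω) (E F : Set Ω) :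
    Pr p (E ∪ F) ≤ Pr p E + Pr p F := by
  rw [Pr_eq, Pr_eq, Pr_eq, ← Finset.sum_add_distrib]
  refine Finset.sum_le_sum fun ω _ => ?_
  have h1 : 0 ≤ E.indicator p ω := Set.indicator_nonneg (fun v _ => hp v) ω
  have h2 : 0 ≤ F.indicator p ω := Set.indicator_nonneg (fun v _ => hp v) ω
  by_cases hE : ω ∈ E
  · rw [Set.indicator_of_mem (Set.mem_union_left _ hE), Set.indicator_of_mem hE]
    linarith
  · by_cases hF : ω ∈ F
    · rw [Set.indicator_of_mem (Set.mem_union_right _ hF), Set.indicator_of_mem hF]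
      linarith
    · rw [Set.indicator_of_notMem (fun h => h.elim hE hF)]
      linarith

end PCR

open PCR

theorem pcr_thm : PCRStmt := by
  intro Ω S V W _ p A B Q c hp hQ
  have hp0 := hp.1
  have key : ∀ ω, 0 < p ω → ci p B (fun ω => (Q ω, c ω)) ω =
      ci p A (fun ω => (Q ω, c ω)) ω + (ci p B c ω - ci p A c ω) +
        ci p Q (fun ω => (B ω, c ω)) ω ∧ 0 ≤ ci p Q (fun ω => (B ω, c ω)) ω := by
    intro ω hω
    have h1 : law p (fun v => (B v, (Q v, c v))) (B ω, (Q ω, c ω)) =
        law p (fun v => (Q v, (B v, c v))) (Q ω, (B ω, c ω)) := by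
      refine law_congr p (fun v => (B v, (Q v, c v))) (fun v => (Q v, (B v, c v))) ω
        (fun v _ => ?_) hp0
      simp only [Prod.mk.injEq]
      tauto
    have h2 : law p (fun v => (A v, (Q v, c v))) (A ω, (Q ω, c ω)) =
        law p (fun v => (A v, c v)) (A ω, c ω) := by
      refine law_congr p (fun v => (A v, (Q v, c v))) (fun v => (A v, c v)) ω
        (fun v hv => ?_) hp0
      simp only [Prod.mk.injEq]
      constructor
      · rintro ⟨h3, -, h4⟩
        exact ⟨h3, h4⟩
      · rintro ⟨h3, h4⟩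
        refine ⟨h3, hQ v ω hv hω ?_, h4⟩
        simp only [Prod.mk.injEq]
        exact ⟨h3, h4⟩
    have p1 : 0 < law p (fun v => (Q v, (B v, c v))) (Q ω, (B ω, c ω)) :=
      law_pos hp0 (fun v => (Q v, (B v, c v))) hω
    have p2 : 0 < law p (fun v => (A v, c v)) (A ω, c ω) :=
      law_pos hp0 (fun v => (A v, c v)) hω
    have p3 : 0 < law p (fun v => (B v, c v)) (B ω, c ω) :=
      law_pos hp0 (fun v => (B v, c v)) hω
    have p4 : 0 < law p (fun v => (Q v, c v)) (Q ω, c ω) :=
      law_pos hp0 (fun v => (Q v, c v)) hω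
    have p5 : 0 < law p c (c ω) := law_pos hp0 c hω
    constructor
    · unfold ci cp
      rw [h1, h2, Real.log_div p1.ne' p4.ne', Real.log_div p2.ne' p4.ne',
        Real.log_div p3.ne' p5.ne', Real.log_div p2.ne' p5.ne', Real.log_div p1.ne' p3.ne']
      ring
    · unfold ci cp
      have h3 : law p (fun v => (Q v, (B v, c v))) (Q ω, (B ω, c ω)) ≤
          law p (fun v => (B v, c v)) (B ω, c ω) :=
        law_mono_of_det hp0 (X := fun v => (Q v, (B v, c v))) (Y := fun v => (B v, c v))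
          (fun v v' _ _ h => by
            simp only [Prod.mk.injEq] at h
            simp only [Prod.mk.injEq]
            exact h.2) hω
      have h4 : Real.log (law p (fun v => (Q v, (B v, c v))) (Q ω, (B ω, c ω)) /
          law p (fun v => (B v, c v)) (B ω, c ω)) ≤ 0 :=
        Real.log_nonpos (div_nonneg p1.le p3.le) ((div_le_one p3).2 h3)
      linarith
  refine ⟨key, fun h h₁ e => ?_⟩
  refine (Pr_le_of p hp0 _ (({ω | e < |ci p B c ω - h₁|} ∪ {ω | e < |ci p A c ω - h₁|}) ∪
    {ω | e < |ci p A (fun ω => (Q ω, c ω)) ω - h|}) fun ω hω hE => ?_).trans ?_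
  · by_contra hn
    simp only [Set.mem_union, Set.mem_ofPred_eq, not_or, not_lt] at hn
    obtain ⟨⟨h1, h2⟩, h3⟩ := hn
    obtain ⟨h4, h5⟩ := key ω hω
    have h6 : ci p B (fun ω => (Q ω, c ω)) ω < h - 3 * e := hE
    have h7 := abs_le.1 h1
    have h8 := abs_le.1 h2
    have h9 := abs_le.1 h3
    linarith [h7.1, h8.2, h9.1]
  · have h1 := Pr_union p hp0 ({ω | e < |ci p B c ω - h₁|} ∪ {ω | e < |ci p A c ω - h₁|})
      {ω | e < |ci p A (fun ω => (Q ω, c ω)) ω - h|}
    have h2 := Pr_union p hp0 {ω | e < |ci p B c ω - h₁|} {ω | e < |ci p A c ω - h₁|}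
    linarith

theorem pcf_thm : PCFStmt := by
  intro Ω S V W _ p D Q c hp ω hω
  have hp0 := hp.1
  have p1 : 0 < law p (fun v => (D v, (Q v, c v))) (D ω, (Q ω, c ω)) :=
    law_pos hp0 (fun v => (D v, (Q v, c v))) hω
  have p2 : 0 < law p (fun v => (Q v, c v)) (Q ω, c ω) :=
    law_pos hp0 (fun v => (Q v, c v)) hω
  have p3 : 0 < law p (fun v => (D v, c v)) (D ω, c ω) :=
    law_pos hp0 (fun v => (D v, c v)) hω
  have p5 : 0 < law p c (c ω) := law_pos hp0 c hω
  have h3 : law p (fun v => (D v, (Q v, c v))) (D ω, (Q ω, c ω)) ≤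
      law p (fun v => (D v, c v)) (D ω, c ω) :=
    law_mono_of_det hp0 (X := fun v => (D v, (Q v, c v))) (Y := fun v => (D v, c v))
      (fun v v' _ _ h => by
        simp only [Prod.mk.injEq] at h
        simp only [Prod.mk.injEq]
        exact ⟨h.1, h.2.2⟩) hω
  have h4 := Real.log_le_log p1 h3
  unfold ci cp
  rw [Real.log_div p1.ne' p2.ne', Real.log_div p3.ne' p5.ne', Real.log_div p2.ne' p5.ne']
  linarith

theorem pcn_thm : PCNStmt := by
  classical
  intro Ω S W _ p B c E N h hp hN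
  have hp0 := hp.1
  have hp1 := hp.2
  have hunion : Pr p {ω | B ω ∈ E (c ω)} ≤ Pr p {ω | ci p B c ω < h} +
      Pr p {ω | B ω ∈ E (c ω) ∧ h ≤ ci p B c ω} := by
    refine (Pr_le_of p hp0 _ ({ω | ci p B c ω < h} ∪ {ω | B ω ∈ E (c ω) ∧ h ≤ ci p B c ω})
      fun ω _ hE => ?_).trans (Pr_union p hp0 _ _)
    by_cases h1 : ci p B c ω < h
    · exact Or.inl h1
    · exact Or.inr ⟨hE, not_lt.1 h1⟩
  have hmain : Pr p {ω | B ω ∈ E (c ω) ∧ h ≤ ci p B c ω} ≤ N * Real.exp (-h) := by
    rw [Pr_eq]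
    -- group by the value of `c`
    have h1 : ∑ ω, ({ω | B ω ∈ E (c ω) ∧ h ≤ ci p B c ω} : Set Ω).indicator p ω ≤
        ∑ w ∈ univ.image c, ∑ b ∈ E w, Real.exp (-h) * law p c w := by
      have h2 : ∀ ω, ({ω | B ω ∈ E (c ω) ∧ h ≤ ci p B c ω} : Set Ω).indicator p ω =
          ∑ w ∈ univ.image c, ∑ b ∈ E w,
            if c ω = w ∧ B ω = b ∧ h ≤ ci p B c ω then p ω else 0 := by
        intro ω
        rw [Finset.sum_eq_single (c ω)]
        · by_cases h3 : B ω ∈ E (c ω)
          · rw [Finset.sum_eq_single (B ω)]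
            · by_cases h4 : h ≤ ci p B c ω
              · rw [Set.indicator_of_mem (show ω ∈ {ω | B ω ∈ E (c ω) ∧ h ≤ ci p B c ω} from
                  ⟨h3, h4⟩), if_pos ⟨rfl, rfl, h4⟩]
              · rw [Set.indicator_of_notMem (show ω ∉ {ω | B ω ∈ E (c ω) ∧ h ≤ ci p B c ω} from
                  fun h5 => h4 h5.2), if_neg fun h5 => h4 h5.2.2]
            · intro b _ hb
              rw [if_neg fun h5 => hb h5.2.1.symm]
            · intro h5
              exact absurd h3 h5
          · rw [Set.indicator_of_notMem (show ω ∉ {ω | B ω ∈ E (c ω) ∧ h ≤ ci p B c ω} from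
              fun h5 => h3 h5.1)]
            symm
            refine Finset.sum_eq_zero fun b hb => ?_
            rw [if_neg]
            rintro ⟨-, h5, -⟩
            exact h3 (h5 ▸ hb)
        · intro w _ hw
          refine Finset.sum_eq_zero fun b _ => ?_
          rw [if_neg fun h5 => hw h5.1.symm]
        · intro h5
          exact absurd (Finset.mem_image_of_mem c (Finset.mem_univ ω)) h5
      rw [Finset.sum_congr rfl fun ω _ => h2 ω, Finset.sum_comm]
      refine Finset.sum_le_sum fun w _ => ?_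
      rw [Finset.sum_comm]
      refine Finset.sum_le_sum fun b _ => ?_
      by_cases h3 : ∃ ω, 0 < p ω ∧ c ω = w ∧ B ω = b ∧ h ≤ ci p B c ω
      · obtain ⟨ω, hω, h4, h5, h6⟩ := h3
        have p3 : 0 < law p (fun v => (B v, c v)) (B ω, c ω) :=
          law_pos hp0 (fun v => (B v, c v)) hω
        have p5 : 0 < law p c (c ω) := law_pos hp0 c hω
        have h7 : law p (fun v => (B v, c v)) (B ω, c ω) ≤ Real.exp (-h) * law p c (c ω) := by
          have h8 : Real.log (law p (fun v => (B v, c v)) (B ω, c ω) / law p c (c ω)) ≤ -h := by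
            have : h ≤ -Real.log (law p (fun v => (B v, c v)) (B ω, c ω) / law p c (c ω)) := h6
            linarith
          have h9 := (Real.log_le_iff_le_exp (div_pos p3 p5)).1 h8
          exact (div_le_iff₀ p5).1 h9
        rw [h4] at h7
        refine le_trans ?_ h7
        rw [h5]
        unfold law
        refine Finset.sum_le_sum fun v _ => ?_
        by_cases h8 : c v = w ∧ B v = b ∧ h ≤ ci p B c v
        · rw [if_pos h8, if_pos (Prod.ext h8.2.1 h8.1)]
        · rw [if_neg h8]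
          split_ifs
          exacts [hp0 v, le_rfl]
      · have h4 : ∀ v ∈ (univ : Finset Ω),
            (if c v = w ∧ B v = b ∧ h ≤ ci p B c v then p v else 0) = 0 := by
          intro v _
          by_cases h5 : c v = w ∧ B v = b ∧ h ≤ ci p B c v
          · rw [if_pos h5]
            by_contra h6
            exact h3 ⟨v, lt_of_le_of_ne (hp0 v) (Ne.symm h6), h5⟩
          · rw [if_neg h5]
        rw [Finset.sum_eq_zero h4]
        exact mul_nonneg (Real.exp_pos _).le (law_nonneg hp0 c w)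
    refine h1.trans ?_
    have h2 : ∀ w ∈ univ.image c, ∑ _b ∈ E w, Real.exp (-h) * law p c w ≤
        N * Real.exp (-h) * law p c w := by
      intro w _
      rw [Finset.sum_const, nsmul_eq_mul, mul_assoc]
      exact mul_le_mul_of_nonneg_right (hN w)
        (mul_nonneg (Real.exp_pos _).le (law_nonneg hp0 c w))
    refine (Finset.sum_le_sum h2).trans ?_
    rw [← Finset.mul_sum, sum_law, hp1, mul_one]
  linarith

end Pool.KAL
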